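import Mathlib

/-! Every Alsedà–Misiurewicz system with `1/2 ≤ y₀ < x₀ < 1` is minimal. -/

set_option autoImplicit false

namespace Pool.Agent.Results.MP_f06e6c_an.Minimal

open Set

/-- the map `f₀` -/
noncomputable def f₀ (x₀ y₀ x : ℝ) : ℝ := if x ≤ x₀ then y₀ / x₀ * x else (1 - y₀) / (1 - x₀) * (x - 1) + 1

/-- the map `f₁` -/
noncomputable def f₁ (x₀ y₀ x : ℝ) : ℝ := 1 - f₀ x₀ y₀ (1 - x)

/-- the orbit of `x`: all images of `x` under finite compositions of `f₀` and `f₁` -/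
inductive Orbit (x₀ y₀ x : ℝ) : ℝ → Prop
  | base : Orbit x₀ y₀ x x
  | zero {t : ℝ} : Orbit x₀ y₀ x t → Orbit x₀ y₀ x (f₀ x₀ y₀ t)
  | one {t : ℝ} : Orbit x₀ y₀ x t → Orbit x₀ y₀ x (f₁ x₀ y₀ t)

def Free (A : Set ℝ) (p q : ℝ) : Prop := ∀ r ∈ A, r ≤ p ∨ q ≤ r

variable {x₀ y₀ : ℝ}

lemma cont (h0 : 0 < x₀) (h1 : x₀ < 1) : Continuous (f₀ x₀ y₀) :=
  Continuous.if_le (by fun_prop) (by fun_prop) continuous_id continuous_const (by
    rintro x rfl
    have : 1 - x ≠ 0 := by linarith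
    field_simp
    ring)

lemma f₀_lt (hy : 1 / 2 ≤ y₀) (h : y₀ < x₀) (h1 : x₀ < 1) {t : ℝ} (t0 : 0 < t) (t1 : t < 1) :
    0 < f₀ x₀ y₀ t ∧ f₀ x₀ y₀ t < t := by
  have a : y₀ / x₀ < 1 := (div_lt_one (by linarith)).2 h
  have a0 : 0 < y₀ / x₀ := div_pos (by linarith) (by linarith)
  have b : 1 < (1 - y₀) / (1 - x₀) := (one_lt_div (by linarith)).2 (by linarith)
  have c : (1 - y₀) / (1 - x₀) * (1 - x₀) = 1 - y₀ := div_mul_cancel₀ _ (by linarith)
  unfold f₀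
  split_ifs with ht
  · exact ⟨by positivity, by nlinarith⟩
  · constructor <;> nlinarith

lemma free_low (hy : 1 / 2 ≤ y₀) (h : y₀ < x₀) {A : Set ℝ} (hA : MapsTo (f₀ x₀ y₀) A A) {p q : ℝ} (hq : q ≤ y₀)
    (F : Free A p q) : Free A (x₀ / y₀ * p) (x₀ / y₀ * q) := by
  intro r hr
  have k : 0 < x₀ / y₀ := div_pos (by linarith) (by linarith)
  have c : x₀ / y₀ * y₀ = x₀ := div_mul_cancel₀ _ (by linarith)
  by_cases e : r ≤ x₀
  · have : r = x₀ / y₀ * f₀ x₀ y₀ r := by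
      have : x₀ ≠ 0 := by linarith
      have : y₀ ≠ 0 := by linarith
      rw [f₀, if_pos e]; field_simp
    rw [this]
    exact (F _ (hA hr)).imp (fun h => mul_le_mul_of_nonneg_left h k.le) fun h => mul_le_mul_of_nonneg_left h k.le
  · right; nlinarith

lemma free_mid (hy : 1 / 2 ≤ y₀) (h : y₀ < x₀) (h1 : x₀ < 1) {A : Set ℝ} (hA : MapsTo (f₀ x₀ y₀) A A) {p q : ℝ}
    (hp : p ≤ y₀) (hq : y₀ ≤ q) (F : Free A p q) : Free A (x₀ / y₀ * p) (1 - (1 - x₀) / (1 - y₀) * (1 - q)) := by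
  intro r hr
  by_cases e : r ≤ x₀
  · rcases free_low hy h hA le_rfl (p := p) (fun r hr => (F r hr).imp_right hq.trans) r hr with a | a
    · exact Or.inl a
    · rw [div_mul_cancel₀ _ (by linarith)] at a
      obtain rfl := le_antisymm e a
      have : f₀ r y₀ r = y₀ := by rw [f₀, if_pos le_rfl, div_mul_cancel₀ _ (by linarith)]
      rcases F _ (hA hr) with b | b <;> rw [this] at b
      · left; rw [le_antisymm hp b, div_mul_cancel₀ _ (by linarith)]
      · right; rw [le_antisymm b hq, div_mul_cancel₀ _ (by linarith)]; linarith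
  · have k : 0 < (1 - x₀) / (1 - y₀) := div_pos (by linarith) (by linarith)
    have c : (1 - x₀) / (1 - y₀) * (1 - y₀) = 1 - x₀ := div_mul_cancel₀ _ (by linarith)
    have : r = 1 - (1 - x₀) / (1 - y₀) * (1 - f₀ x₀ y₀ r) := by
      have : 1 - x₀ ≠ 0 := by linarith
      have : 1 - y₀ ≠ 0 := by linarith
      rw [f₀, if_neg e]; field_simp; ring
    rcases F _ (hA hr) with b | b
    · exfalso; nlinarith
    · right; nlinarith

lemma flip {A : Set ℝ} {p q : ℝ} (F : Free A p q) : Free ((1 - ·) ⁻¹' A) (1 - q) (1 - p) := fun r hr =>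
  (F _ hr).symm.imp (fun h => by linarith) fun h => by linarith

lemma half (hy : 1 / 2 ≤ y₀) (h : y₀ < x₀) (h1 : x₀ < 1) {A : Set ℝ} (h0 : MapsTo (f₀ x₀ y₀) A A)
    (h0' : MapsTo (f₀ x₀ y₀) ((1 - ·) ⁻¹' A) ((1 - ·) ⁻¹' A)) {δ : ℝ} (hδ : ∀ p q, Free A p q → q - p ≤ δ)
    {α β : ℝ} (F : Free A α β) (hβ : β ∈ A) (ha : α ≤ y₀) (hb : y₀ ≤ β) (b1 : β < 1) :
    x₀ / y₀ * (1 - (1 - x₀) / (1 - y₀) * (1 - β) - x₀ / y₀ * α) ≤ δ := by
  have k : 1 < x₀ / y₀ := (one_lt_div (by linarith)).2 h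
  have F1 := free_mid hy h h1 h0 ha hb F
  have e : β ≤ x₀ / y₀ * α := by
    refine (F1 β hβ).resolve_right (not_le.2 ?_)
    have : (1 - x₀) / (1 - y₀) < 1 := (div_lt_one (by linarith)).2 (by linarith)
    nlinarith
  have := hδ _ _ (flip (free_low hy h h0' (by linarith) (flip F1)) |> fun F => by simpa [preimage_preimage] using F)
  linarith

theorem result (x₀ y₀ : ℝ) (hy : 1 / 2 ≤ y₀) (h : y₀ < x₀) (h1 : x₀ < 1) (x : ℝ) (hx : x ∈ Ioo (0 : ℝ) 1) :
    Ioo (0 : ℝ) 1 ⊆ closure {t | Orbit x₀ y₀ x t} := by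
  set O := {t | Orbit x₀ y₀ x t}
  have hO : O ⊆ Ioo 0 1 := fun t ht => by
    induction ht with
    | base => exact hx
    | zero _ ih => exact ⟨(f₀_lt hy h h1 ih.1 ih.2).1, (f₀_lt hy h h1 ih.1 ih.2).2.trans ih.2⟩
    | @one t _ ih =>
      have := f₀_lt hy h h1 (t := 1 - t) (by linarith [ih.2]) (by linarith [ih.1])
      exact ⟨by unfold f₁; linarith [ih.1, this.2], by unfold f₁; linarith [this.1]⟩
  have c0 := cont (y₀ := y₀) (by linarith : 0 < x₀) h1
  have m0 : MapsTo (f₀ x₀ y₀) (closure O) (closure O) := MapsTo.closure (fun _ ht => Orbit.zero ht) c0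
  have m1 : MapsTo (f₁ x₀ y₀) (closure O) (closure O) :=
    MapsTo.closure (fun _ ht => Orbit.one ht) (by unfold f₁; fun_prop)
  have m1' : MapsTo (f₀ x₀ y₀) ((1 - ·) ⁻¹' closure O) ((1 - ·) ⁻¹' closure O) := fun t ht => by
    simpa [f₁] using m1 ht
  have sub : closure O ⊆ Icc 0 1 := closure_minimal (hO.trans Ioo_subset_Icc_self) isClosed_Icc
  have cp : IsCompact (closure O) := isCompact_Icc.of_isClosed_subset isClosed_closure sub
  have xO : x ∈ closure O := subset_closure Orbit.base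
  have ends : ∀ {B : Set ℝ}, IsCompact B → MapsTo (f₀ x₀ y₀) B B → B ⊆ Icc 0 1 → ∀ t ∈ B, t < 1 → 0 ∈ B := by
    intro B hB m s t ht t1
    obtain ⟨i, hi, hm⟩ := hB.exists_isLeast ⟨t, ht⟩
    rcases (s hi).1.eq_or_lt with e | e
    · rwa [e]
    · exact absurd (hm (m hi)) (not_le.2 (f₀_lt hy h h1 e ((hm ht).trans_lt t1)).2)
  have z0 : 0 ∈ closure O := ends cp m0 sub x xO hx.2
  have z1 : 1 ∈ closure O := by
    simpa using ends ((Homeomorph.subLeft (1 : ℝ)).isCompact_preimage.2 cp) m1'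
      (fun t ht => have : 1 - t ∈ closure O := ht
        ⟨by linarith [(sub this).2], by linarith [(sub this).1]⟩) (1 - x) (by simpa using xO) (by linarith [hx.1])
  have acc : ∀ {t}, t ∈ closure O → ∀ p q, p < t → t < q → ¬Free O p q := fun ht p q a b F => by
    obtain ⟨r, hr, hr'⟩ := mem_closure_iff.1 ht _ isOpen_Ioo ⟨a, b⟩
    exact (F r hr').elim (not_le.2 hr.1) (not_le.2 hr.2)
  intro t ht
  by_contra hn
  set A := closure O ∪ (Ioo 0 1)ᶜ with hA
  have cA : IsClosed A := isClosed_closure.union isOpen_Ioo.isClosed_compl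
  have out : MapsTo (f₀ x₀ y₀) (Ioo 0 1)ᶜ (Ioo 0 1)ᶜ := fun r hr hr' => hr <| by
    have a0 : 0 < y₀ / x₀ := div_pos (by linarith) (by linarith)
    have b : 0 < (1 - y₀) / (1 - x₀) := div_pos (by linarith) (by linarith)
    obtain ⟨u, v⟩ := hr'
    unfold f₀ at u v
    split_ifs at u v with e
    · exact ⟨by nlinarith, by linarith⟩
    · exact ⟨by linarith, by nlinarith⟩
  have M0 : MapsTo (f₀ x₀ y₀) A A := m0.union_union out
  have M1 : MapsTo (f₀ x₀ y₀) ((1 - ·) ⁻¹' A) ((1 - ·) ⁻¹' A) := by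
    have : (1 - ·) ⁻¹' (Ioo (0 : ℝ) 1)ᶜ = (Ioo 0 1)ᶜ := by rw [preimage_compl]; simp
    rw [hA, preimage_union, this]
    exact m1'.union_union out
  have MA : (1 - ·) ⁻¹' ((1 - ·) ⁻¹' A) = A := by simp [preimage_preimage]
  have A0 : (0 : ℝ) ∈ A := Or.inl z0
  have A1 : (1 : ℝ) ∈ A := Or.inl z1
  have ins : ∀ p q, p < q → Free A p q → 0 ≤ p ∧ q ≤ 1 := fun p q pq F => by
    have : (p + q) / 2 ∈ Ioo (0 : ℝ) 1 := by
      by_contra e
      rcases F _ (Or.inr e) with a | a <;> linarith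
    exact ⟨(F 0 A0).resolve_right (by linarith [this.1]), (F 1 A1).resolve_left (by linarith [this.2])⟩
  let S := {l | ∃ p q, Free A p q ∧ l = q - p}
  have bS : BddAbove S := ⟨1, by
    rintro _ ⟨p, q, F, rfl⟩
    rcases lt_or_ge p q with e | e
    · linarith [ins p q e F]
    · linarith⟩
  have hδ : ∀ p q, Free A p q → q - p ≤ sSup S := fun p q F => le_csSup bS ⟨p, q, F, rfl⟩
  have hδ' : ∀ p q, Free ((1 - ·) ⁻¹' A) p q → q - p ≤ sSup S := fun p q F => by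
    have := hδ _ _ (MA ▸ flip F); linarith
  have tA : t ∉ A := fun e => e.elim hn fun e => e ht
  obtain ⟨ε, ε0, hε⟩ := Metric.isOpen_iff.1 cA.isOpen_compl t tA
  have Ft : Free A (t - ε) (t + ε) := fun r hr => by
    by_contra e
    push Not at e
    exact hε (by rw [Real.ball_eq_Ioo]; exact e) hr
  have δ0 : 0 < sSup S := by linarith [hδ _ _ Ft]
  have k : 1 < x₀ / y₀ := (one_lt_div (by linarith)).2 h
  obtain ⟨_, ⟨p, q, F, rfl⟩, hl⟩ := exists_lt_of_lt_csSup (s := S) ⟨_, _, _, Ft, rfl⟩ (div_lt_self δ0 k)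
  rw [div_lt_iff₀ (by linarith)] at hl
  have pq : p < q := by nlinarith
  obtain ⟨p0, q1⟩ := ins p q pq F
  have hα := (cA.inter isClosed_Iic).csSup_mem ⟨0, A0, p0⟩ (bddAbove_Iic.mono inter_subset_right)
  have hβ := (cA.inter isClosed_Ici).csInf_mem ⟨1, A1, q1⟩ (bddBelow_Ici.mono inter_subset_right)
  have G : Free A (sSup (A ∩ Iic p)) (sInf (A ∩ Ici q)) := fun r hr =>
    (F r hr).imp (fun e => le_csSup (bddAbove_Iic.mono inter_subset_right) ⟨hr, e⟩)
      fun e => csInf_le (bddBelow_Ici.mono inter_subset_right) ⟨hr, e⟩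
  generalize sSup (A ∩ Iic p) = α at hα G
  generalize sInf (A ∩ Ici q) = β at hβ G
  obtain ⟨αA, αp⟩ := hα
  obtain ⟨βA, qβ⟩ := hβ
  rw [mem_Iic] at αp
  rw [mem_Ici] at qβ
  obtain ⟨α0, β1⟩ := ins α β (by linarith) G
  have hl' : sSup S < (β - α) * (x₀ / y₀) := by nlinarith
  have b1 : β < 1 := not_le.1 fun e => acc z1 α 2 (by linarith) (by norm_num) fun r hr =>
    Or.inl ((G r (Or.inl (subset_closure hr))).resolve_right (by linarith [(hO hr).2]))
  have a0 : 0 < α := not_le.1 fun e => acc z0 (-1) β (by norm_num) (by linarith) fun r hr =>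
    Or.inr ((G r (Or.inl (subset_closure hr))).resolve_left (by linarith [(hO hr).1]))
  rcases le_or_gt β y₀ with e | e
  · linarith [hδ _ _ (free_low hy h M0 e G)]
  rcases le_or_gt (1 - α) y₀ with e' | e'
  · linarith [hδ' _ _ (free_low hy h M1 e' (flip G))]
  have H1 := half hy h h1 M0 M1 hδ G βA (by linarith) e.le b1
  have H2 := half hy h h1 M1 (MA.symm ▸ M0) hδ' (flip G) (by simpa using αA) (by linarith) e'.le (by linarith)
  have cK : (1 - x₀) / (1 - y₀) + x₀ / y₀ ≤ 2 := by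
    rw [div_add_div _ _ (by linarith) (by linarith), div_le_iff₀ (mul_pos (by linarith) (by linarith))]
    nlinarith [mul_nonneg (sub_nonneg.2 h.le) (sub_nonneg.2 hy)]
  nlinarith [mul_nonneg (mul_nonneg (sub_nonneg.2 cK) (by linarith : 0 ≤ 1 - β + α)) (by linarith : 0 ≤ x₀ / y₀)]

end Pool.Agent.Results.MP_f06e6c_an.Minimal
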